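import Pool.Agent.X121.WN.Gen
import Pool.Agent.X121.ZS.Fin2

set_option autoImplicit false

/-! # One number -/

namespace Pool.Agent.X121.WN

open Finset Filter

theorem rpow_eighth {x : ℝ} (hx : 0 ≤ x) : (x ^ (1 / 8 : ℝ)) ^ 9 = x ^ (9 / 8 : ℝ) := by
  rw [← Real.rpow_natCast, ← Real.rpow_mul hx]
  norm_num

theorem adm_le {b n : ℕ} (hb : 2 ≤ b) {Λ : ℝ} (hΛ : 2 ≤ Λ) (h : (n : ℝ) * Real.log b ≤ Λ ^ 9) :
    (n : ℝ) ≤ Λ ^ 10 := by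
  have h1 : (1 / 2 : ℝ) ≤ Real.log b := by
    have h2 : Real.log 2 ≤ Real.log b := Real.log_le_log (by norm_num) (by exact_mod_cast hb)
    have := Real.log_two_gt_d9
    linarith
  have h2 : (n : ℝ) * (1 / 2) ≤ n * Real.log b := mul_le_mul_of_nonneg_left h1 (Nat.cast_nonneg _)
  have h3 : (0 : ℝ) ≤ Λ ^ 9 := by positivity
  have h4 : Λ ^ 10 = Λ ^ 9 * Λ := by ring
  rw [h4]
  nlinarith

theorem eighth_ge (A : ℝ) : ∃ N₀ : ℕ, ∀ N : ℕ, N₀ ≤ N → A ≤ Real.log N ^ (1 / 8 : ℝ) := by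
  have h1 : Tendsto (fun N : ℕ => Real.log N ^ (1 / 8 : ℝ)) atTop atTop :=
    (tendsto_rpow_atTop (by norm_num)).comp (Real.tendsto_log_atTop.comp tendsto_natCast_atTop_atTop)
  exact eventually_atTop.1 (h1.eventually_ge_atTop A)

theorem single {θ : ℝ} (hθ0 : 0 < θ) (hθ : ∀ m : ℕ, θ ≠ m) {η : ℝ} (hη : 0 < η) (hη1 : η ≤ 1)
    {ε : ℝ} (hε : 0 < ε) (hε1 : ε ≤ 1) :
    ∃ c : ℝ, 0 < c ∧ c ≤ 1 ∧ ∃ N₀ : ℕ, ∀ N H : ℕ, N₀ ≤ N → (N : ℝ) ^ η ≤ H → H ≤ N → ∀ ω y : ℝ,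
      1 ≤ |ω| → |ω| ≤ Real.exp (Real.log N ^ (9 / 8 : ℝ)) →
      ∀ D : Finset ℕ, D ⊆ Ioc N (N + H) →
      (∀ n ∈ D, ∃ b : ℕ, 2 ≤ b ∧ (b : ℝ) ≤ Real.exp (c * Real.log N ^ (1 / 8 : ℝ)) ∧
        ¬ WinGood ε (Real.log N ^ (1 / 8 : ℝ)) b (fun j => (j : ℝ) * Real.log b ≤ Real.log N ^ (9 / 8 : ℝ) ∧
          (8 / η * Real.log N ≤ j * Real.log b ∨
            ((N : ℝ) ^ (1 / 2 + η) ≤ H ∧ (N : ℝ) ^ (1 - θ + η) ≤ H))) (fun _ : Unit => ω * (n : ℝ) ^ θ + y)) →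
      (D.card : ℝ) ≤ Real.exp (-(c * Real.log N ^ (1 / 8 : ℝ))) * H := by
  classical
  obtain ⟨c, hc0, hc1, Λ₀, hw⟩ := windows Unit hε hε1
  obtain ⟨N₁, hN₁⟩ := Pool.Agent.X121.ZS.final hθ0 hθ hη hη1
  obtain ⟨N₂, hN₂⟩ := eighth_ge (max Λ₀ 2)
  refine ⟨c, hc0, hc1, max N₁ (max N₂ 1), fun N H hN hH1 hH2 ω y hω1 hω2 D hDS hD => ?_⟩
  have hf := (hN₁ N H ((le_max_left _ _).trans hN) hH1 hH2 ω y hω1 hω2).1
  have hΛ := hN₂ N (((le_max_left _ _).trans (le_max_right _ _)).trans hN)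
  have hN1 : 1 ≤ N := ((le_max_right _ _).trans (le_max_right _ _)).trans hN
  have hlog : 0 ≤ Real.log N := Real.log_natCast_nonneg N
  have hΛ2 : 2 ≤ Real.log N ^ (1 / 8 : ℝ) := (le_max_right _ _).trans hΛ
  have hr := rpow_eighth hlog
  obtain ⟨Λ, hΛe⟩ : ∃ Λ, Λ = Real.log N ^ (1 / 8 : ℝ) := ⟨_, rfl⟩
  rw [← hΛe] at hΛ hΛ2 hr hD hf ⊢
  rw [← hr] at hD hf
  have hcard : (Ioc N (N + H)).card = H := by rw [Nat.card_Ioc]; omega
  have h1 := hw Λ ((le_max_left _ _).trans hΛ) (Ioc N (N + H)) (fun n _ => ω * (n : ℝ) ^ θ + y)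
    (fun b j => (j : ℝ) * Real.log b ≤ Λ ^ 9 ∧
          (8 / η * Real.log N ≤ j * Real.log b ∨
            ((N : ℝ) ^ (1 / 2 + η) ≤ H ∧ (N : ℝ) ^ (1 - θ + η) ≤ H)))
    (fun b n hb h => adm_le hb hΛ2 h.1) ?_ D hDS hD
  · rw [hcard] at h1
    exact h1
  · intro b hb2 hbe s R _ hR hadm E
    have hcR : (Finset.Ico s (s + R)).card = R := by rw [Nat.card_Ico]; omega
    have hPl' : ((Finset.Ico s (s + R)).card : ℝ) ≤ Λ := by
      rw [hcR]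
      rw [Fintype.card_unit] at hR
      push_cast at hR
      linarith
    have hor : (∀ n ∈ Finset.Ico s (s + R), 8 / η * Real.log N ≤ n * Real.log b) ∨
        ((N : ℝ) ^ (1 / 2 + η) ≤ H ∧ (N : ℝ) ^ (1 - θ + η) ≤ H) := by
      by_cases hc : ((N : ℝ) ^ (1 / 2 + η) ≤ H ∧ (N : ℝ) ^ (1 - θ + η) ≤ H)
      · exact Or.inr hc
      · left
        intro n hn
        rcases (hadm n hn).2 with h | h
        · exact h
        · exact absurd h hc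
    have h2 := hf b hb2 hbe (Finset.Ico s (s + R)) hPl' (fun n hn => (hadm n hn).1) hor (E.image fun w => w ())
    have hinj : Function.Injective (fun w : Unit → Finset.Ico s (s + R) → Fin b => w ()) := by
      intro w w' h
      funext t
      exact h
    rw [card_image_of_injective _ hinj, hcR] at h2
    have e1 : ((Ioc N (N + H)).filter fun m : ℕ => ∃ w ∈ E, ∀ j : Unit, ∀ n : Finset.Ico s (s + R),
          ⌊(b : ℝ) * Int.fract ((b : ℝ) ^ (n : ℕ) * (ω * (m : ℝ) ^ θ + y))⌋₊ = w j n) =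
        ((Ioc N (N + H)).filter fun m : ℕ => ∃ w ∈ E.image (fun w => w ()), ∀ n : Finset.Ico s (s + R),
          Pool.Agent.X121.ZS.digit b n (ω * (m : ℝ) ^ θ + y) = w n) := by
      apply filter_congr
      intro m _
      constructor
      · rintro ⟨w, hw, h⟩
        exact ⟨w (), mem_image_of_mem _ hw, fun n => h () n⟩
      · rintro ⟨w, hw, h⟩
        obtain ⟨w', hw', rfl⟩ := mem_image.1 hw
        exact ⟨w', hw', fun _ n => h n⟩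
    rw [e1, hcard, Fintype.card_unit, one_mul]
    exact h2

end Pool.Agent.X121.WN
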