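import Pool.Agent.X121.WN.Multi
import Pool.Agent.X121.TV.MeasK

set_option autoImplicit false

/-! # Algebraic numbers: a measure of linear independence; digit matrices -/

namespace Pool.Agent.X121.WN

open Finset Filter Pool.Agent.X121.GS

theorem LI_alg {r : ℕ} (α : Fin r → ℝ) (hα : ∀ s, IsAlgebraic ℚ (α s)) (hli : LinearIndependent ℚ α) :
    ∃ c₁ ν : ℝ, 0 < c₁ ∧ 0 ≤ ν ∧ LI α c₁ ν := by
  classical
  rcases r with _ | m
  · refine ⟨1, 0, one_pos, le_rfl, fun X hX => ?_⟩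
    exact absurd (Subsingleton.elim X 0) hX
  obtain ⟨K, hK⟩ : ∃ K : IntermediateField ℚ ℝ, K = IntermediateField.adjoin ℚ (Set.range α) := ⟨_, rfl⟩
  have hfd : FiniteDimensional ℚ K := by
    rw [hK]
    exact IntermediateField.finiteDimensional_adjoin (by
      rintro _ ⟨j, rfl⟩
      exact (hα j).isIntegral)
  have hmem : ∀ j, α j ∈ K := by
    intro j
    rw [hK]
    exact IntermediateField.subset_adjoin _ _ ⟨j, rfl⟩
  obtain ⟨κ, c, h1, h2, h3⟩ := Pool.Agent.X121.TV.meas_field Pool.Agent.X121.TV.MT_exp K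
    (fun j => (⟨α j, hmem j⟩ : K)) (fun _ => 0) (by simpa using hli)
  refine ⟨c, κ, h2, h1, fun X hX h hh hXh => ?_⟩
  have h4 := h3 X hX h hh hXh
  simpa using h4

/-- A block of digits is determined by the fractional part. -/
theorem digits_iff {b m : ℕ} (hb : 1 ≤ b) (x : ℝ) (c : Fin m → Fin b) :
    (∀ l : Fin m, ⌊(b : ℝ) * Int.fract ((b : ℝ) ^ (l : ℕ) * x)⌋₊ = c l) ↔
      ((val c : ℕ) : ℝ) / (b : ℝ) ^ m ≤ Int.fract x ∧ Int.fract x < ((val c : ℕ) + 1 : ℝ) / (b : ℝ) ^ m := by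
  have hb0 : (0 : ℝ) < b := by exact_mod_cast hb
  have hbm : (0 : ℝ) < (b : ℝ) ^ m := by positivity
  have hlt : ∀ y : ℝ, ⌊(b : ℝ) * Int.fract y⌋₊ < b := by
    intro y
    rw [Nat.floor_lt (mul_nonneg hb0.le (Int.fract_nonneg _))]
    calc (b : ℝ) * Int.fract y < b * 1 := mul_lt_mul_of_pos_left (Int.fract_lt_one _) hb0
      _ = b := mul_one _
  have h0 : 0 ≤ (b : ℝ) ^ m * Int.fract x := mul_nonneg hbm.le (Int.fract_nonneg _)
  have h1 : ⌊(b : ℝ) ^ m * Int.fract x⌋₊ = val (fun l : Fin m =>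
      (⟨⌊(b : ℝ) * Int.fract ((b : ℝ) ^ (l : ℕ) * x)⌋₊, hlt _⟩ : Fin b)) := val_eq _ x fun r => rfl
  have h2 : (∀ l : Fin m, ⌊(b : ℝ) * Int.fract ((b : ℝ) ^ (l : ℕ) * x)⌋₊ = c l) ↔
      ⌊(b : ℝ) ^ m * Int.fract x⌋₊ = val c := by
    constructor
    · intro h
      exact val_eq c x fun r => (h r).symm
    · intro h l
      rw [h1] at h
      have h3 := (val_bij (val c) (val_lt c)).unique h rfl
      exact congrArg Fin.val (congrFun h3 l)
  rw [h2, Nat.floor_eq_iff h0, div_le_iff₀' hbm, lt_div_iff₀' hbm]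

end Pool.Agent.X121.WN
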