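import Pool.Agent.X121.WN.Main

set_option autoImplicit false

/-! # From the joint law of few digits to the distribution in all windows and all bases -/

namespace Pool.Agent.X121.WN

open Finset Filter

/-- all windows of length at least `Λ` of the sequence `(b ^ n Z)` are uniformly distributed up to `ε` -/
def WinGood {κ : Type} [Fintype κ] (ε Λ : ℝ) (b : ℕ) (Adm : ℕ → Prop) (Z : κ → ℝ) : Prop :=
  ∀ i W : ℕ, Λ ≤ W → (∀ n, i ≤ n → n < i + W → Adm n) → ∀ u v : κ → ℝ, (∀ t, 0 ≤ u t) →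
    (∀ t, u t ≤ v t) → (∀ t, v t ≤ 1) →
    |(((range W).filter fun j => ∀ t, u t ≤ Int.fract ((b : ℝ) ^ (i + j) * Z t) ∧
      Int.fract ((b : ℝ) ^ (i + j) * Z t) < v t).card : ℝ) - (∏ t, (v t - u t)) * W| ≤ ε * W

theorem windows (κ : Type) [Fintype κ] [DecidableEq κ] {ε : ℝ} (hε : 0 < ε) (hε1 : ε ≤ 1) :
    ∃ c : ℝ, 0 < c ∧ c ≤ 1 ∧ ∃ Λ₀ : ℝ, ∀ Λ : ℝ, Λ₀ ≤ Λ → ∀ (S : Finset ℕ) (Z : ℕ → κ → ℝ)
      (Adm : ℕ → ℕ → Prop), (∀ b n, 2 ≤ b → Adm b n → (n : ℝ) ≤ Λ ^ 10) →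
      (∀ b : ℕ, 2 ≤ b → (b : ℝ) ≤ Real.exp Λ → ∀ s R : ℕ, 1 ≤ R → (Fintype.card κ * R : ℝ) ≤ Λ →
        (∀ n ∈ Finset.Ico s (s + R), Adm b n) → ∀ E : Finset (κ → Finset.Ico s (s + R) → Fin b),
        |((S.filter fun m => ∃ w ∈ E, ∀ j, ∀ n : Finset.Ico s (s + R),
          ⌊(b : ℝ) * Int.fract ((b : ℝ) ^ (n : ℕ) * Z m j)⌋₊ = w j n).card : ℝ) / S.card -
          E.card / (b : ℝ) ^ (Fintype.card κ * R)| ≤ Real.exp (-Λ)) →
      ∀ D : Finset ℕ, D ⊆ S →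
      (∀ m ∈ D, ∃ b : ℕ, 2 ≤ b ∧ (b : ℝ) ≤ Real.exp (c * Λ) ∧ ¬ WinGood ε Λ b (Adm b) (Z m)) →
      (D.card : ℝ) ≤ Real.exp (-(c * Λ)) * S.card := by
  classical
  obtain ⟨K, hK⟩ : ∃ K, K = Fintype.card κ := ⟨_, rfl⟩
  obtain ⟨l, hl⟩ : ∃ l : ℕ, 8 * ((K : ℝ) + 1) / ε < 2 ^ l := pow_unbounded_of_one_lt _ (by norm_num)
  have hK0 : (0 : ℝ) ≤ K := Nat.cast_nonneg _
  have hl1 : 1 ≤ l := by
    rcases Nat.eq_zero_or_pos l with h | h
    · exfalso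
      rw [h, pow_zero, div_lt_one hε] at hl
      linarith
    · exact h
  have hl1' : (1 : ℝ) ≤ l := by exact_mod_cast hl1
  obtain ⟨γ, hγ⟩ : ∃ γ : ℝ, γ = ε / (8 * l * (K + 1)) := ⟨_, rfl⟩
  have hγ0 : 0 < γ := by rw [hγ]; positivity
  have hγl : γ * l * (K + 1) = ε / 8 := by rw [hγ]; field_simp
  have hγ1 : γ ≤ 1 / 8 := by
    have h1 : γ * 1 ≤ γ * (l * (K + 1)) := mul_le_mul_of_nonneg_left (by nlinarith) hγ0.le
    nlinarith
  obtain ⟨c₀, hc₀⟩ : ∃ c₀ : ℝ, c₀ = (ε / 4) ^ 2 * γ / 8 := ⟨_, rfl⟩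
  have hc₀0 : 0 < c₀ := by rw [hc₀]; positivity
  have hc₀1 : c₀ ≤ 1 := by
    rw [hc₀]
    have h1 : (ε / 4) ^ 2 ≤ 1 := pow_le_one₀ (by positivity) (by linarith)
    nlinarith
  obtain ⟨c, hc⟩ : ∃ c : ℝ, c = c₀ / (4 * (K * l + 1)) := ⟨_, rfl⟩
  have hc0 : 0 < c := by rw [hc]; positivity
  have hcc : c * (4 * (K * l + 1)) = c₀ := by rw [hc]; field_simp
  have hc1 : c ≤ 1 := by
    have h1 : c * 1 ≤ c * (4 * (K * l + 1)) := mul_le_mul_of_nonneg_left (by nlinarith) hc0.le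
    linarith
  have hev : ∀ᶠ Λ : ℝ in atTop, 3 * 4 ^ K * (Λ ^ 10 + 1) ≤ Real.exp (c₀ / 2 * Λ) := by
    have h1 := (tendsto_exp_mul_div_rpow_atTop 10 (c₀ / 2) (by positivity)).eventually_ge_atTop (3 * 4 ^ K * 2)
    filter_upwards [h1, eventually_ge_atTop 1] with x hx hx1
    have hx0 : (0 : ℝ) < x ^ (10 : ℝ) := Real.rpow_pos_of_pos (by linarith) _
    rw [le_div_iff₀ hx0] at hx
    refine le_trans ?_ hx
    have e : x ^ (10 : ℝ) = x ^ (10 : ℕ) := by rw [← Real.rpow_natCast]; norm_num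
    rw [e]
    have h2 : (1 : ℝ) ≤ x ^ 10 := one_le_pow₀ hx1
    have h3 : (0 : ℝ) < 3 * 4 ^ K := by positivity
    nlinarith
  obtain ⟨Λ₁, hΛ₁⟩ := eventually_atTop.1 hev
  refine ⟨c, hc0, hc1, max Λ₁ (2 / γ), fun Λ hΛ S Z Adm hAdm law D hDS hD => ?_⟩
  have hΛ1 := hΛ₁ Λ ((le_max_left _ _).trans hΛ)
  have hΛ2 : 2 / γ ≤ Λ := (le_max_right _ _).trans hΛ
  have hΛ2' : 2 ≤ γ * Λ := by rwa [div_le_iff₀' hγ0] at hΛ2
  have hΛ0 : 0 < Λ := by
    have : 0 < 2 / γ := by positivity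
    linarith
  have hΛ16 : 1 ≤ Λ := by nlinarith
  obtain ⟨k, hk⟩ : ∃ k : ℕ, k = ⌊γ * Λ⌋₊ := ⟨_, rfl⟩
  have hk1 : (k : ℝ) ≤ γ * Λ := by rw [hk]; exact Nat.floor_le (by positivity)
  have hk2 : γ * Λ < k + 1 := by rw [hk]; exact Nat.lt_floor_add_one _
  have hk3 : γ * Λ / 2 ≤ k := by linarith
  have hk0 : 1 ≤ k := by
    have : (1 : ℝ) ≤ k := by linarith
    exact_mod_cast this
  have hkl : (k : ℝ) * l * (K + 1) ≤ ε / 8 * Λ := by
    calc (k : ℝ) * l * (K + 1) ≤ γ * Λ * l * (K + 1) := by gcongr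
      _ = γ * l * (K + 1) * Λ := by ring
      _ = ε / 8 * Λ := by rw [hγl]
  have hkl' : (k : ℝ) * l ≤ ε / 8 * Λ := by
    refine le_trans ?_ hkl
    have : (0 : ℝ) ≤ k * l := by positivity
    nlinarith
  obtain ⟨b₁, hb₁⟩ : ∃ b₁ : ℕ, b₁ = ⌊Real.exp (c * Λ)⌋₊ := ⟨_, rfl⟩
  have hb₁' : (b₁ : ℝ) ≤ Real.exp (c * Λ) := by rw [hb₁]; exact Nat.floor_le (Real.exp_pos _).le
  obtain ⟨n₁, hn₁⟩ : ∃ n₁ : ℕ, n₁ = ⌊Λ ^ 10⌋₊ := ⟨_, rfl⟩
  have hn₁' : (n₁ : ℝ) ≤ Λ ^ 10 := by rw [hn₁]; exact Nat.floor_le (by positivity)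
  -- the bad sets
  obtain ⟨f, hf⟩ : ∃ f : ℕ → ℕ → (κ → ℕ) → (κ → ℕ) → ℕ → ℝ, f = fun m b J J' n =>
    (if (∀ t, J t ≤ ⌊((b ^ l : ℕ) : ℝ) * Int.fract ((b : ℝ) ^ n * Z m t)⌋₊ ∧
      ⌊((b ^ l : ℕ) : ℝ) * Int.fract ((b : ℝ) ^ n * Z m t)⌋₊ < J' t) then (1 : ℝ) else 0) -
      ∏ t, (((J' t - J t : ℕ) : ℝ) / (b ^ l : ℕ)) := ⟨_, rfl⟩
  obtain ⟨F, hF⟩ : ∃ F : ℕ × ℕ × (κ → ℕ) × (κ → ℕ) → Finset ℕ, F = fun q =>
    if 2 ≤ q.1 ∧ (∀ n, q.2.1 ≤ n → n < q.2.1 + k * l → Adm q.1 n) ∧ (∀ t, q.2.2.2 t ≤ q.1 ^ l) ∧ (q.1 : ℝ) ≤ Real.exp (c * Λ)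
    then S.filter (fun m => ε / 4 * k < |∑ j ∈ range k, f m q.1 q.2.2.1 q.2.2.2 (q.2.1 + j * l)|) else ∅ := ⟨_, rfl⟩
  have hFc : ∀ q, ((F q).card : ℝ) ≤ 3 * Real.exp (-(c₀ * Λ)) * S.card := by
    rintro ⟨b, s, J, J'⟩
    rw [hF]
    simp only
    split_ifs with hcond
    · obtain ⟨q1, q2, q3, q4⟩ := hcond
      have hbΛ : (b : ℝ) ≤ Real.exp Λ := by
        refine q4.trans (Real.exp_le_exp.2 ?_)
        nlinarith
      have h1 := one_bad (κ := κ) (b := b) (by omega) S Z s k l hl1 (δ := Real.exp (-Λ)) (ε := ε / 4)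
        (by positivity) (by linarith) (fun E => by
          have e : (Finset.Ico s (s + k * l)).card = k * l := by rw [Nat.card_Ico]; omega
          rw [e]
          exact law b q1 hbΛ s (k * l) (Nat.mul_pos hk0 hl1) (by
            rw [← hK]
            push_cast
            nlinarith) (fun n hn => q2 n (mem_Ico.1 hn).1 (mem_Ico.1 hn).2) E) J J' q3
      rw [hf]
      refine h1.trans ?_
      apply mul_le_mul_of_nonneg_right _ (Nat.cast_nonneg _)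
      have h2 : Real.exp (-((ε / 4) ^ 2 * k / 4)) ≤ Real.exp (-(c₀ * Λ)) := by
        apply Real.exp_le_exp.2
        rw [hc₀]
        have : (ε / 4) ^ 2 * (γ * Λ / 2) ≤ (ε / 4) ^ 2 * k := mul_le_mul_of_nonneg_left hk3 (by positivity)
        linarith
      have h3 : Real.exp (-Λ) ≤ Real.exp (-(c₀ * Λ)) := by
        apply Real.exp_le_exp.2
        nlinarith
      linarith
    · rw [card_empty]
      push_cast
      positivity
  obtain ⟨T, hT⟩ : ∃ T : Finset (ℕ × ℕ × (κ → ℕ) × (κ → ℕ)), T = (Icc 2 b₁) ×ˢ (range (n₁ + 1)) ×ˢ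
    (Fintype.piFinset fun _ : κ => range (b₁ ^ l + 1)) ×ˢ (Fintype.piFinset fun _ : κ => range (b₁ ^ l + 1)) := ⟨_, rfl⟩
  have hTc : (T.card : ℝ) ≤ Real.exp (c * Λ) * (Λ ^ 10 + 1) * (4 ^ K * Real.exp (2 * (c * l * K * Λ))) := by
    rw [hT, card_product, card_product, card_product, Fintype.card_piFinset, prod_const, card_univ,
      card_range, card_range, Nat.card_Icc, ← hK]
    push_cast
    have h1 : ((b₁ + 1 - 2 : ℕ) : ℝ) ≤ Real.exp (c * Λ) := by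
      refine le_trans ?_ hb₁'
      exact_mod_cast (by omega : b₁ + 1 - 2 ≤ b₁)
    have h2 : (n₁ : ℝ) + 1 ≤ Λ ^ 10 + 1 := by linarith
    have h3 : ((b₁ : ℝ) ^ l + 1) ^ K ≤ 2 ^ K * Real.exp (c * l * K * Λ) := by
      have h4 : (b₁ : ℝ) ^ l ≤ Real.exp (c * Λ) ^ l := pow_le_pow_left₀ (Nat.cast_nonneg _) hb₁' _
      have h5 : (1 : ℝ) ≤ Real.exp (c * Λ) ^ l := one_le_pow₀ (Real.one_le_exp (by positivity))
      have h6 : (b₁ : ℝ) ^ l + 1 ≤ 2 * Real.exp (c * Λ) ^ l := by linarith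
      calc ((b₁ : ℝ) ^ l + 1) ^ K ≤ (2 * Real.exp (c * Λ) ^ l) ^ K := pow_le_pow_left₀ (by positivity) h6 _
        _ = 2 ^ K * Real.exp (c * l * K * Λ) := by
            rw [mul_pow, ← Real.exp_nat_mul, ← Real.exp_nat_mul]
            congr 2
            ring
    calc ((b₁ + 1 - 2 : ℕ) : ℝ) * (((n₁ : ℝ) + 1) * (((b₁ : ℝ) ^ l + 1) ^ K * ((b₁ : ℝ) ^ l + 1) ^ K)) ≤
        Real.exp (c * Λ) * ((Λ ^ 10 + 1) * ((2 ^ K * Real.exp (c * l * K * Λ)) * (2 ^ K * Real.exp (c * l * K * Λ)))) := by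
          gcongr
      _ = _ := by
          have e1 : (4 : ℝ) ^ K = 2 ^ K * 2 ^ K := by rw [← mul_pow]; norm_num
          have e2 : Real.exp (2 * (c * l * K * Λ)) = Real.exp (c * l * K * Λ) * Real.exp (c * l * K * Λ) := by
            rw [← Real.exp_add]; congr 1; ring
          rw [e1, e2]
          ring
  have hsub : D ⊆ T.biUnion F := by
    intro m hm
    obtain ⟨b, hb2, hbe, hnot⟩ := hD m hm
    by_contra hcon
    apply hnot
    intro i W hW hA u v hu huv hv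
    have hb1 : b ≤ b₁ := by rw [hb₁]; exact Nat.le_floor hbe
    have hbl : 1 ≤ b ^ l := Nat.one_le_pow _ _ (by omega)
    have hW0 : (0 : ℝ) < W := by linarith
    have hblr : (8 * ((K : ℝ) + 1) / ε) < (b ^ l : ℕ) := by
      refine hl.trans_le ?_
      push_cast
      exact pow_le_pow_left₀ (by norm_num) (by exact_mod_cast hb2) _
    have hbl0 : (0 : ℝ) < (b ^ l : ℕ) := by exact_mod_cast hbl
    have h1 : ∀ J J' : κ → ℕ, (∀ t, J t ≤ b ^ l) → (∀ t, J' t ≤ b ^ l) →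
        |(((range W).filter (fun j => ∀ t, J t ≤ ⌊((b ^ l : ℕ) : ℝ) * Int.fract ((b : ℝ) ^ (i + j) * Z m t)⌋₊ ∧
          ⌊((b ^ l : ℕ) : ℝ) * Int.fract ((b : ℝ) ^ (i + j) * Z m t)⌋₊ < J' t)).card : ℝ) -
        (∏ t, (((J' t - J t : ℕ) : ℝ) / (b ^ l : ℕ))) * W| ≤ ε / 4 * W + 2 * (k * l : ℕ) := by
      intro J J' hJ hJ'
      have hf1 : ∀ n, |f m b J J' n| ≤ 1 := by
        intro n
        have hp0 : 0 ≤ ∏ t, (((J' t - J t : ℕ) : ℝ) / (b ^ l : ℕ)) := prod_nonneg fun t _ => by positivity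
        have hp1 : ∏ t, (((J' t - J t : ℕ) : ℝ) / (b ^ l : ℕ)) ≤ 1 := by
          refine prod_le_one (fun t _ => by positivity) fun t _ => ?_
          rw [div_le_one hbl0]
          exact_mod_cast (Nat.sub_le _ _).trans (hJ' t)
        rw [hf]
        simp only
        split_ifs
        · rw [abs_le]; constructor <;> linarith
        · rw [abs_le]; constructor <;> linarith
      have h2 := chunks (f m b J J') hf1 hk0 hl1 (ε := ε / 4) (by positivity) W i (by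
        intro s hs1 hs2
        by_contra hc3
        apply hcon
        rw [mem_biUnion]
        refine ⟨(b, s, J, J'), ?_, ?_⟩
        · rw [hT, mem_product, mem_product, mem_product, mem_Icc, mem_range, Fintype.mem_piFinset,
            Fintype.mem_piFinset]
          have hpow : b ^ l ≤ b₁ ^ l := Nat.pow_le_pow_left hb1 _
          have hs : s ≤ n₁ := by
            have hkl1 : 1 ≤ k * l := Nat.mul_pos hk0 hl1
            rw [hn₁]
            exact Nat.le_floor (hAdm b s hb2 (hA s hs1 (by omega)))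
          refine ⟨⟨hb2, hb1⟩, by simp only; omega, fun t => ?_, fun t => ?_⟩
          · rw [mem_range]
            have := hJ t
            simp only
            omega
          · rw [mem_range]
            have := hJ' t
            simp only
            omega
        · rw [hF]
          simp only
          rw [if_pos ⟨hb2, fun n hn1 hn2 => hA n (by omega) (by omega), hJ', hbe⟩, mem_filter]
          exact ⟨hDS hm, not_le.1 hc3⟩)
      have h3 : ∑ j ∈ range W, f m b J J' (i + j) =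
          (((range W).filter (fun j => ∀ t, J t ≤ ⌊((b ^ l : ℕ) : ℝ) * Int.fract ((b : ℝ) ^ (i + j) * Z m t)⌋₊ ∧
          ⌊((b ^ l : ℕ) : ℝ) * Int.fract ((b : ℝ) ^ (i + j) * Z m t)⌋₊ < J' t)).card : ℝ) -
          (∏ t, (((J' t - J t : ℕ) : ℝ) / (b ^ l : ℕ))) * W := by
        rw [hf]
        simp only
        rw [sum_sub_distrib, sum_boole, sum_const, card_range, nsmul_eq_mul, mul_comm (W : ℝ)]
      rw [← h3]
      exact h2
    have h4 := box (fun j t => (b : ℝ) ^ (i + j) * Z m t) W hbl h1 u v hu huv hv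
    refine h4.trans ?_
    rw [← hK]
    have h5 : 2 * (K : ℝ) / (b ^ l : ℕ) ≤ ε / 4 := by
      rw [div_le_iff₀ hbl0]
      rw [div_lt_iff₀ hε] at hblr
      nlinarith
    have h6 : 2 * (K : ℝ) / (b ^ l : ℕ) * W ≤ ε / 4 * W := mul_le_mul_of_nonneg_right h5 hW0.le
    have h7 : (2 : ℝ) * (k * l : ℕ) ≤ ε / 4 * W := by
      push_cast
      nlinarith
    nlinarith
  have h1 : (D.card : ℝ) ≤ T.card * (3 * Real.exp (-(c₀ * Λ)) * S.card) := by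
    calc (D.card : ℝ) ≤ ((T.biUnion F).card : ℝ) := by exact_mod_cast card_le_card hsub
      _ ≤ ∑ q ∈ T, ((F q).card : ℝ) := by exact_mod_cast card_biUnion_le
      _ ≤ ∑ q ∈ T, 3 * Real.exp (-(c₀ * Λ)) * S.card := sum_le_sum fun q _ => hFc q
      _ = _ := by rw [sum_const, nsmul_eq_mul]
  refine h1.trans ?_
  rw [← mul_assoc]
  refine mul_le_mul_of_nonneg_right ?_ (Nat.cast_nonneg _)
  calc (T.card : ℝ) * (3 * Real.exp (-(c₀ * Λ))) ≤
      Real.exp (c * Λ) * (Λ ^ 10 + 1) * (4 ^ K * Real.exp (2 * (c * l * K * Λ))) * (3 * Real.exp (-(c₀ * Λ))) := by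
        gcongr
    _ = (3 * 4 ^ K * (Λ ^ 10 + 1)) * (Real.exp (c * Λ) * Real.exp (2 * (c * l * K * Λ)) * Real.exp (-(c₀ * Λ))) := by
        ring
    _ ≤ Real.exp (c₀ / 2 * Λ) * (Real.exp (c * Λ) * Real.exp (2 * (c * l * K * Λ)) * Real.exp (-(c₀ * Λ))) := by
        gcongr
    _ = Real.exp (-(c * Λ)) := by
        rw [← Real.exp_add, ← Real.exp_add, ← Real.exp_add]
        congr 1
        rw [← hcc]
        ring

end Pool.Agent.X121.WN
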