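import Pool.Agent.X121.WN.Win

set_option autoImplicit false

/-! # From the joint law of few digits to the distribution in all windows and all bases -/

namespace Pool.Agent.X121.WN

open Finset

section one

variable {κ : Type} [Fintype κ] [DecidableEq κ]

/-- the box of the blocks -/
def G (b l : ℕ) (J J' : κ → ℕ) (c : κ → Fin l → Fin b) : Prop := ∀ t, J t ≤ val (c t) ∧ val (c t) < J' t

instance (b l : ℕ) (J J' : κ → ℕ) (c : κ → Fin l → Fin b) : Decidable (G b l J J' c) := by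
  unfold G; infer_instance

theorem card_G {b l : ℕ} (J J' : κ → ℕ) (hJ : ∀ t, J' t ≤ b ^ l) :
    (univ.filter fun c : κ → Fin l → Fin b => G b l J J' c).card = ∏ t, (J' t - J t) := by
  have e : (univ.filter fun c : κ → Fin l → Fin b => G b l J J' c) =
      Fintype.piFinset (fun t => univ.filter fun c : Fin l → Fin b => J t ≤ val c ∧ val c < J' t) := by
    ext c
    simp only [mem_filter, mem_univ, true_and, Fintype.mem_piFinset, G]
  rw [e, Fintype.card_piFinset]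
  exact prod_congr rfl fun t _ => card_val _ _ (hJ t)

theorem one_bad {b : ℕ} (hb : 1 ≤ b) (S : Finset ℕ) (Z : ℕ → κ → ℝ) (s k l : ℕ) (hl : 1 ≤ l)
    {δ ε : ℝ} (hε : 0 < ε) (hε1 : ε ≤ 1)
    (law : ∀ E : Finset (κ → (Finset.Ico s (s + k * l)) → Fin b),
      |((S.filter fun m => ∃ w ∈ E, ∀ j, ∀ n : (Finset.Ico s (s + k * l)),
        ⌊(b : ℝ) * Int.fract ((b : ℝ) ^ (n : ℕ) * Z m j)⌋₊ = w j n).card : ℝ) / S.card -
      E.card / (b : ℝ) ^ (Fintype.card κ * (Finset.Ico s (s + k * l)).card)| ≤ δ)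
    (J J' : κ → ℕ) (hJ' : ∀ t, J' t ≤ b ^ l) :
    ((S.filter fun m => ε * k < |∑ j ∈ range k,
        ((if (∀ t, J t ≤ ⌊((b ^ l : ℕ) : ℝ) * Int.fract ((b : ℝ) ^ (s + j * l) * Z m t)⌋₊ ∧
          ⌊((b ^ l : ℕ) : ℝ) * Int.fract ((b : ℝ) ^ (s + j * l) * Z m t)⌋₊ < J' t) then (1 : ℝ) else 0) -
          ∏ t, (((J' t - J t : ℕ) : ℝ) / (b ^ l : ℕ)))|).card : ℝ) ≤
      (2 * Real.exp (-(ε ^ 2 * k / 4)) + δ) * S.card := by
  classical
  rcases S.eq_empty_or_nonempty with rfl | hS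
  · simp
  have hS0 : (0 : ℝ) < S.card := by exact_mod_cast hS.card_pos
  have hb0 : (0 : ℝ) < b := by exact_mod_cast hb
  have hbl : 0 < b ^ l := pow_pos (by omega) _
  have hbl0 : (0 : ℝ) < (b ^ l : ℕ) := by exact_mod_cast hbl
  obtain ⟨p, hp⟩ : ∃ p, p = ∏ t, (((J' t - J t : ℕ) : ℝ) / (b ^ l : ℕ)) := ⟨_, rfl⟩
  have hp0 : 0 ≤ p := by rw [hp]; exact prod_nonneg fun t _ => by positivity
  have hp1 : p ≤ 1 := by
    rw [hp]
    refine prod_le_one (fun t _ => by positivity) fun t _ => ?_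
    rw [div_le_one hbl0]
    exact_mod_cast (Nat.sub_le _ _).trans (hJ' t)
  rw [← hp]
  obtain ⟨Y, hY⟩ : ∃ Y : (κ → Fin l → Fin b) → ℝ, Y = fun c => (if G b l J J' c then (1 : ℝ) else 0) - p := ⟨_, rfl⟩
  have hcard : (Fintype.card (κ → Fin l → Fin b) : ℝ) = ((b ^ l : ℕ) : ℝ) ^ Fintype.card κ := by
    rw [Fintype.card_fun, Fintype.card_fun, Fintype.card_fin, Fintype.card_fin]
    push_cast
    rfl
  have hY0 : ∑ c, Y c = 0 := by
    rw [hY, sum_sub_distrib, sum_boole, card_G J J' hJ', sum_const, card_univ, nsmul_eq_mul, hcard, hp,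
      prod_div_distrib, prod_const, card_univ]
    push_cast
    field_simp
    ring
  have hY1 : ∀ c, |Y c| ≤ 1 := by
    intro c
    rw [hY]
    simp only
    split_ifs
    · rw [abs_le]; constructor <;> linarith
    · rw [abs_le]; constructor <;> linarith
  have hidx : ∀ (j : Fin k) (r : Fin l), s + (j : ℕ) * l + (r : ℕ) ∈ Finset.Ico s (s + k * l) := by
    intro j r
    rw [mem_Ico]
    refine ⟨by omega, ?_⟩
    have h1 : ((j : ℕ) + 1) * l ≤ k * l := Nat.mul_le_mul_right _ j.2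
    have h2 : ((j : ℕ) + 1) * l = (j : ℕ) * l + l := by ring
    have := r.2
    omega
  obtain ⟨Φ, hΦ⟩ : ∃ Φ : (κ → (Finset.Ico s (s + k * l)) → Fin b) → (Fin k → κ → Fin l → Fin b),
    Φ = fun w j t r => w t ⟨s + (j : ℕ) * l + (r : ℕ), hidx j r⟩ := ⟨_, rfl⟩
  have hinj : Function.Injective Φ := by
    intro w w' h
    funext t n
    obtain ⟨n, hn⟩ := n
    have hn' := mem_Ico.1 hn
    have h1 : (n - s) / l < k := by
      rw [Nat.div_lt_iff_lt_mul (by omega)]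
      omega
    have h2 : (n - s) % l < l := Nat.mod_lt _ (by omega)
    have h3 := congrFun (congrFun (congrFun h ⟨(n - s) / l, h1⟩) t) ⟨(n - s) % l, h2⟩
    rw [hΦ] at h3
    have h4 : s + (n - s) / l * l + (n - s) % l = n := by
      have := Nat.div_add_mod' (n - s) l
      omega
    simp only [h4] at h3
    exact h3
  obtain ⟨E, hE⟩ : ∃ E : Finset (κ → (Finset.Ico s (s + k * l)) → Fin b),
    E = univ.filter fun w => ε * k < |∑ j, Y (Φ w j)| := ⟨_, rfl⟩
  have hEc : (E.card : ℝ) ≤ 2 * Real.exp (-(ε ^ 2 * k / 4)) *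
      (b : ℝ) ^ (Fintype.card κ * (Finset.Ico s (s + k * l)).card) := by
    have h1 := tail2 Y hY0 hY1 k hε hε1
    have h2 : E.card ≤ (univ.filter fun w : Fin k → (κ → Fin l → Fin b) =>
        ε * k < |∑ j, Y (w j)|).card := by
      refine card_le_card_of_injOn Φ ?_ hinj.injOn
      intro w hw
      rw [hE] at hw
      rw [mem_coe, mem_filter] at hw ⊢
      exact ⟨mem_univ _, hw.2⟩
    have h3 : (Fintype.card (κ → Fin l → Fin b) : ℝ) ^ k =
        (b : ℝ) ^ (Fintype.card κ * (Finset.Ico s (s + k * l)).card) := by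
      rw [hcard, Nat.card_Ico]
      push_cast
      rw [← pow_mul, ← pow_mul]
      congr 1
      have : s + k * l - s = k * l := by omega
      rw [this]
      ring
    rw [← h3]
    exact (Nat.cast_le.2 h2).trans h1
  have h1 := (abs_le.1 (law E)).2
  have hpow : (0 : ℝ) < (b : ℝ) ^ (Fintype.card κ * (Finset.Ico s (s + k * l)).card) := by positivity
  have h2 : (E.card : ℝ) / (b : ℝ) ^ (Fintype.card κ * (Finset.Ico s (s + k * l)).card) ≤
      2 * Real.exp (-(ε ^ 2 * k / 4)) := by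
    rw [div_le_iff₀ hpow]
    exact hEc
  have h3 : ((S.filter fun m => ∃ w ∈ E, ∀ j, ∀ n : (Finset.Ico s (s + k * l)),
        ⌊(b : ℝ) * Int.fract ((b : ℝ) ^ (n : ℕ) * Z m j)⌋₊ = w j n).card : ℝ) ≤
      (2 * Real.exp (-(ε ^ 2 * k / 4)) + δ) * S.card := by
    rw [← div_le_iff₀ hS0]
    linarith
  refine le_trans (Nat.cast_le.2 (card_le_card fun m hm => ?_)) h3
  rw [mem_filter] at hm ⊢
  refine ⟨hm.1, ?_⟩
  have hdig : ∀ x : ℝ, ⌊(b : ℝ) * Int.fract x⌋₊ < b := by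
    intro x
    rw [Nat.floor_lt (mul_nonneg hb0.le (Int.fract_nonneg _))]
    calc (b : ℝ) * Int.fract x < b * 1 := mul_lt_mul_of_pos_left (Int.fract_lt_one _) hb0
      _ = b := mul_one _
  refine ⟨fun t n => ⟨⌊(b : ℝ) * Int.fract ((b : ℝ) ^ (n : ℕ) * Z m t)⌋₊, hdig _⟩, ?_, fun t n => rfl⟩
  rw [hE, mem_filter]
  refine ⟨mem_univ _, ?_⟩
  refine lt_of_lt_of_eq hm.2 ?_
  rw [← Fin.sum_univ_eq_sum_range]
  congr 1
  refine sum_congr rfl fun j _ => ?_
  rw [hY]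
  simp only
  congr 1
  have hv : ∀ t, ⌊((b ^ l : ℕ) : ℝ) * Int.fract ((b : ℝ) ^ (s + (j : ℕ) * l) * Z m t)⌋₊ =
      val (fun r : Fin l => (⟨⌊(b : ℝ) * Int.fract ((b : ℝ) ^ (s + (j : ℕ) * l + (r : ℕ)) * Z m t)⌋₊, hdig _⟩ : Fin b)) := by
    intro t
    push_cast
    apply val_eq
    intro r
    simp only
    rw [← mul_assoc, ← pow_add, Nat.add_comm (r : ℕ) (s + (j : ℕ) * l)]
  simp only [hv]
  rw [hΦ]
  rfl

end one

end Pool.Agent.X121.WN
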