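import Pool.Agent.X121.WN.Gen
import Pool.Agent.X121.WN.Single
import Pool.Agent.X121.GS.Tup3

set_option autoImplicit false

/-! # Several numbers -/

namespace Pool.Agent.X121.WN

open Finset Filter Pool.Agent.X121.GS

theorem multi {κ ρ : Type} [Fintype κ] [Nonempty κ] [DecidableEq κ] [Fintype ρ] [DecidableEq ρ]
    {a θ : κ → ℝ} (ha : ∀ t, 0 ≤ a t) (hθ : ∀ t, 0 < θ t)
    {q : ℕ} {C : ℝ} (hC : 0 ≤ C) (hLB : LB a θ q C) (α : ρ → ℝ) {c₁ ν : ℝ} (hc₁ : 0 < c₁) (hν : 0 ≤ ν)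
    (hα : LI α c₁ ν) {η : ℝ} (hη : 0 < η) (hη1 : η ≤ 1) {ε : ℝ} (hε : 0 < ε) (hε1 : ε ≤ 1) :
    ∃ c : ℝ, 0 < c ∧ c ≤ 1 ∧ ∃ N₀ : ℕ, ∀ N H : ℕ, N₀ ≤ N → (N : ℝ) ^ η ≤ H → H ≤ N →
      ∀ (ω : κ → ℝ) (z : ρ × κ → ℝ), (∀ t, 1 ≤ |ω t|) → (∀ t, |ω t| ≤ Real.exp (Real.log N ^ (9 / 8 : ℝ))) →
      ∀ D : Finset ℕ, D ⊆ Ioc N (N + H) →
      (∀ n ∈ D, ∃ b : ℕ, 2 ≤ b ∧ (b : ℝ) ≤ Real.exp (c * Real.log N ^ (1 / 8 : ℝ)) ∧
        ¬ WinGood ε (Real.log N ^ (1 / 8 : ℝ)) b (fun j => (j : ℝ) * Real.log b ≤ Real.log N ^ (9 / 8 : ℝ) ∧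
          (C + q + 2) / (η / 4) * Real.log N ≤ j * Real.log b)
          (fun j : ρ × κ => α j.1 * (ω j.2 * ((n : ℝ) + a j.2) ^ θ j.2) + z j)) →
      (D.card : ℝ) ≤ Real.exp (-(c * Real.log N ^ (1 / 8 : ℝ))) * H := by
  classical
  obtain ⟨c, hc0, hc1, Λ₀, hw⟩ := windows (ρ × κ) hε hε1
  obtain ⟨N₁, hN₁⟩ := Pool.Agent.X121.ZS.to_log2 (tup_law ha hθ hC hLB α hc₁ hν hα hη hη1) 256
  obtain ⟨N₂, hN₂⟩ := eighth_ge (max Λ₀ 2)
  refine ⟨c, hc0, hc1, max N₁ (max N₂ 1), fun N H hN hH1 hH2 ω z hω1 hω2 D hDS hD => ?_⟩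
  obtain ⟨y, hy256, hy1, hNy, hlaw, hy8, hy98⟩ := hN₁ N ((le_max_left _ _).trans hN)
  have hΛ := hN₂ N (((le_max_left _ _).trans (le_max_right _ _)).trans hN)
  have hN1 : 1 ≤ N := ((le_max_right _ _).trans (le_max_right _ _)).trans hN
  have hlog : 0 ≤ Real.log N := Real.log_natCast_nonneg N
  have hlogy : Real.log N = y ^ 70 := by rw [hNy, Real.log_exp]
  have hΛ2 : 2 ≤ Real.log N ^ (1 / 8 : ℝ) := (le_max_right _ _).trans hΛ
  have hr := rpow_eighth hlog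
  have hy0 : (0 : ℝ) < y := by linarith
  have hΛy : Real.log N ^ (1 / 8 : ℝ) ≤ y ^ 9 := by
    rw [hy8]
    calc y ^ (35 / 4 : ℝ) ≤ y ^ (9 : ℝ) := Real.rpow_le_rpow_of_exponent_le hy1 (by norm_num)
      _ = y ^ 9 := by rw [← Real.rpow_natCast]; norm_num
  have h4y : 4 * y ^ (315 / 4 : ℝ) ≤ y ^ 79 := by
    have h1 : (4 : ℝ) ≤ y ^ (1 / 4 : ℝ) := by
      calc (4 : ℝ) = (256 : ℝ) ^ (1 / 4 : ℝ) := by
            rw [show (256 : ℝ) = 4 ^ (4 : ℝ) by norm_num, ← Real.rpow_mul (by norm_num)]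
            norm_num
        _ ≤ y ^ (1 / 4 : ℝ) := Real.rpow_le_rpow (by norm_num) hy256 (by norm_num)
    calc 4 * y ^ (315 / 4 : ℝ) ≤ y ^ (1 / 4 : ℝ) * y ^ (315 / 4 : ℝ) := by gcongr
      _ = y ^ (79 : ℝ) := by rw [← Real.rpow_add hy0]; norm_num
      _ = y ^ 79 := by rw [← Real.rpow_natCast]; norm_num
  have hy78 : y ^ 9 ≤ y ^ 78 := pow_le_pow_right₀ hy1 (by norm_num)
  have hy79 : 256 * y ^ 78 ≤ y ^ 79 := by
    have e : y ^ 79 = y * y ^ 78 := by ring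
    rw [e]
    gcongr
  have hy78' : 0 < y ^ 78 := by positivity
  have hHy : Real.exp (η * y ^ 70) ≤ H := by
    refine le_trans (le_of_eq ?_) hH1
    rw [hNy, ← Real.exp_mul, mul_comm]
  rw [hy98] at hω2 hr hD
  have hcard : (Ioc N (N + H)).card = H := by rw [Nat.card_Ioc]; omega
  obtain ⟨Λ, hΛe⟩ : ∃ Λ, Λ = Real.log N ^ (1 / 8 : ℝ) := ⟨_, rfl⟩
  rw [← hΛe] at hΛ hΛ2 hr hD hΛy ⊢
  have h1 := hw Λ ((le_max_left _ _).trans hΛ) (Ioc N (N + H))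
    (fun n (j : ρ × κ) => α j.1 * (ω j.2 * ((n : ℝ) + a j.2) ^ θ j.2) + z j)
    (fun b j => (j : ℝ) * Real.log b ≤ y ^ (315 / 4 : ℝ) ∧
          (C + q + 2) / (η / 4) * Real.log N ≤ j * Real.log b)
    (fun b n hb h => adm_le hb hΛ2 (by rw [hr]; exact h.1)) ?_ D hDS hD
  · rw [hcard] at h1
    exact h1
  · intro b hb2 hbe s R hR1 hR hadm E
    have hb0 : (0 : ℝ) < b := by exact_mod_cast (by omega : 0 < b)
    obtain ⟨hs1, hs2⟩ := hadm s (mem_Ico.2 ⟨le_rfl, by omega⟩)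
    obtain ⟨ht1, -⟩ := hadm (s + R - 1) (mem_Ico.2 ⟨by omega, by omega⟩)
    have h2 := hlaw H hHy hH2 ω z hω1 (fun t => (hω2 t).trans (Real.exp_le_exp.2 (by linarith))) b hb2
      (hbe.trans (Real.exp_le_exp.2 hΛy)) s R (hR.trans hΛy) (by
        rw [← hlogy]
        calc Real.exp ((C + q + 2) / (η / 4) * Real.log N) ≤ Real.exp ((s : ℝ) * Real.log b) :=
              Real.exp_le_exp.2 hs2
          _ = (b : ℝ) ^ s := by rw [← Real.log_pow, Real.exp_log (by positivity)]) (by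
        have e1 : s + R = (s + R - 1) + 1 := by omega
        rw [e1, pow_succ]
        calc (b : ℝ) ^ (s + R - 1) * b ≤ Real.exp (y ^ (315 / 4 : ℝ)) * Real.exp (y ^ 9) := by
              apply mul_le_mul _ (hbe.trans (Real.exp_le_exp.2 hΛy)) hb0.le (Real.exp_pos _).le
              calc (b : ℝ) ^ (s + R - 1) = Real.exp (((s + R - 1 : ℕ) : ℝ) * Real.log b) := by
                    rw [← Real.log_pow, Real.exp_log (by positivity)]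
                _ ≤ _ := Real.exp_le_exp.2 ht1
          _ = Real.exp (y ^ (315 / 4 : ℝ) + y ^ 9) := by rw [← Real.exp_add]
          _ ≤ Real.exp (y ^ 79 / 2) := by
              apply Real.exp_le_exp.2
              linarith) E
    rw [hcard]
    refine h2.trans (Real.exp_le_exp.2 ?_)
    linarith

end Pool.Agent.X121.WN
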