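import Mathlib

set_option autoImplicit false

/-! # A tail bound for sums of independent bounded variables, and digit blocks -/

namespace Pool.Agent.X121.WN

open Finset

theorem mgf {C : Type} [Fintype C] (Y : C → ℝ) (h0 : ∑ c, Y c = 0) (h1 : ∀ c, |Y c| ≤ 1)
    {l : ℝ} (hl : |l| ≤ 1) : ∑ c, Real.exp (l * Y c) ≤ Fintype.card C * Real.exp (l ^ 2) := by
  have a1 : ∀ c, Real.exp (l * Y c) ≤ 1 + l * Y c + l ^ 2 := by
    intro c
    have h2 : |l * Y c| ≤ 1 := by
      rw [abs_mul]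
      calc |l| * |Y c| ≤ 1 * 1 := mul_le_mul hl (h1 c) (abs_nonneg _) (by norm_num)
        _ = 1 := by norm_num
    have h3 := Real.abs_exp_sub_one_sub_id_le h2
    have h4 := (abs_le.1 h3).2
    have h5 : (l * Y c) ^ 2 ≤ l ^ 2 := by
      rw [mul_pow]
      have h6 : Y c ^ 2 ≤ 1 := by
        rw [← sq_abs]
        exact pow_le_one₀ (abs_nonneg _) (h1 c)
      nlinarith [sq_nonneg l]
    linarith
  calc ∑ c, Real.exp (l * Y c) ≤ ∑ c, (1 + l * Y c + l ^ 2) := sum_le_sum fun c _ => a1 c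
    _ = Fintype.card C * (1 + l ^ 2) := by
        rw [sum_add_distrib, sum_add_distrib, ← mul_sum, h0]
        simp only [sum_const, card_univ, nsmul_eq_mul]
        ring
    _ ≤ Fintype.card C * Real.exp (l ^ 2) := by
        apply mul_le_mul_of_nonneg_left _ (Nat.cast_nonneg _)
        have := Real.add_one_le_exp (l ^ 2)
        linarith

theorem tail1 {C : Type} [Fintype C] (Y : C → ℝ) (h0 : ∑ c, Y c = 0) (h1 : ∀ c, |Y c| ≤ 1)
    (k : ℕ) {ε : ℝ} (hε : 0 < ε) (hε1 : ε ≤ 1) :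
    ((univ.filter fun w : Fin k → C => ε * k < ∑ j, Y (w j)).card : ℝ) ≤
      Real.exp (-(ε ^ 2 * k / 4)) * (Fintype.card C : ℝ) ^ k := by
  classical
  have h2 := mgf Y h0 h1 (l := ε / 2) (by rw [abs_of_pos (by linarith)]; linarith)
  have h3 : (∑ c, Real.exp (ε / 2 * Y c)) ^ k = ∑ w : Fin k → C, Real.exp (ε / 2 * ∑ j, Y (w j)) := by
    rw [Fintype.sum_pow]
    refine sum_congr rfl fun w _ => ?_
    rw [mul_sum, Real.exp_sum]
  have h4 : ((univ.filter fun w : Fin k → C => ε * k < ∑ j, Y (w j)).card : ℝ) *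
      Real.exp (ε / 2 * (ε * k)) ≤ ∑ w : Fin k → C, Real.exp (ε / 2 * ∑ j, Y (w j)) := by
    calc ((univ.filter fun w : Fin k → C => ε * k < ∑ j, Y (w j)).card : ℝ) *
        Real.exp (ε / 2 * (ε * k)) =
        ∑ w ∈ univ.filter fun w : Fin k → C => ε * k < ∑ j, Y (w j), Real.exp (ε / 2 * (ε * k)) := by
          rw [sum_const, nsmul_eq_mul]
      _ ≤ ∑ w ∈ univ.filter fun w : Fin k → C => ε * k < ∑ j, Y (w j),
          Real.exp (ε / 2 * ∑ j, Y (w j)) := by
          refine sum_le_sum fun w hw => Real.exp_le_exp.2 ?_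
          exact mul_le_mul_of_nonneg_left (mem_filter.1 hw).2.le (by linarith)
      _ ≤ _ := sum_le_sum_of_subset_of_nonneg (filter_subset _ _) fun _ _ _ => (Real.exp_pos _).le
  rw [← h3] at h4
  have h5 : (∑ c, Real.exp (ε / 2 * Y c)) ^ k ≤ (Fintype.card C * Real.exp ((ε / 2) ^ 2)) ^ k :=
    pow_le_pow_left₀ (sum_nonneg fun _ _ => (Real.exp_pos _).le) h2 k
  rw [mul_pow, ← Real.exp_nat_mul] at h5
  have h6 := h4.trans h5
  rw [← le_div_iff₀ (Real.exp_pos _)] at h6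
  refine h6.trans (le_of_eq ?_)
  rw [mul_div_assoc, ← Real.exp_sub, mul_comm]
  congr 1
  congr 1
  ring

theorem tail2 {C : Type} [Fintype C] (Y : C → ℝ) (h0 : ∑ c, Y c = 0) (h1 : ∀ c, |Y c| ≤ 1)
    (k : ℕ) {ε : ℝ} (hε : 0 < ε) (hε1 : ε ≤ 1) :
    ((univ.filter fun w : Fin k → C => ε * k < |∑ j, Y (w j)|).card : ℝ) ≤
      2 * Real.exp (-(ε ^ 2 * k / 4)) * (Fintype.card C : ℝ) ^ k := by
  classical
  have h2 := tail1 Y h0 h1 k hε hε1
  have h3 := tail1 (fun c => -Y c) (by rw [sum_neg_distrib, h0, neg_zero])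
    (fun c => by rw [abs_neg]; exact h1 c) k hε hε1
  have h4 : (univ.filter fun w : Fin k → C => ε * k < |∑ j, Y (w j)|) ⊆
      (univ.filter fun w : Fin k → C => ε * k < ∑ j, Y (w j)) ∪
      (univ.filter fun w : Fin k → C => ε * k < ∑ j, -Y (w j)) := by
    intro w hw
    rw [mem_filter] at hw
    rw [mem_union, mem_filter, mem_filter, sum_neg_distrib]
    rcases lt_abs.1 hw.2 with h | h
    · exact Or.inl ⟨mem_univ _, h⟩
    · exact Or.inr ⟨mem_univ _, h⟩
  have h5 : ((univ.filter fun w : Fin k → C => ε * k < |∑ j, Y (w j)|).card : ℝ) ≤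
      ((univ.filter fun w : Fin k → C => ε * k < ∑ j, Y (w j)).card : ℝ) +
      ((univ.filter fun w : Fin k → C => ε * k < ∑ j, -Y (w j)).card : ℝ) := by
    exact_mod_cast (card_le_card h4).trans (card_union_le _ _)
  linarith

/-! ### Blocks of digits -/

theorem floor_step {b : ℕ} (x : ℝ) (l : ℕ) :
    ⌊((b : ℝ) ^ (l + 1)) * Int.fract x⌋₊ =
      b * ⌊((b : ℝ) ^ l) * Int.fract x⌋₊ + ⌊(b : ℝ) * Int.fract ((b : ℝ) ^ l * x)⌋₊ := by
  have h1 : Int.fract ((b : ℝ) ^ l * x) = Int.fract ((b : ℝ) ^ l * Int.fract x) := by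
    have e : (b : ℝ) ^ l * x = (b : ℝ) ^ l * Int.fract x + (((b : ℤ) ^ l * ⌊x⌋ : ℤ) : ℝ) := by
      push_cast
      have := Int.fract_add_floor x
      rw [← mul_add, this]
    rw [e, Int.fract_add_intCast]
  rw [h1]
  have h0 : 0 ≤ (b : ℝ) ^ l * Int.fract x := mul_nonneg (by positivity) (Int.fract_nonneg _)
  generalize hz : (b : ℝ) ^ l * Int.fract x = z at h0 ⊢
  have h2 : (b : ℝ) ^ (l + 1) * Int.fract x = b * z := by rw [← hz]; ring
  rw [h2]
  have h3 : (b : ℝ) * z = b * Int.fract z + ((b * ⌊z⌋₊ : ℕ) : ℝ) := by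
    have h4 := Int.fract_add_floor z
    have h5 : ((⌊z⌋₊ : ℕ) : ℝ) = (⌊z⌋ : ℝ) := natCast_floor_eq_intCast_floor h0
    push_cast
    rw [h5, ← mul_add, h4]
  rw [h3, Nat.floor_add_natCast (mul_nonneg (by positivity) (Int.fract_nonneg _))]
  ring

theorem floor_block {b : ℕ} (x : ℝ) (l : ℕ) :
    ⌊((b : ℝ) ^ l) * Int.fract x⌋₊ =
      ∑ r ∈ range l, ⌊(b : ℝ) * Int.fract ((b : ℝ) ^ r * x)⌋₊ * b ^ (l - 1 - r) := by
  induction l with
  | zero =>
    rw [pow_zero, one_mul, range_zero, sum_empty, Nat.floor_eq_zero]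
    exact Int.fract_lt_one _
  | succ l ih =>
    rw [floor_step, ih, sum_range_succ, mul_sum]
    congr 1
    · refine sum_congr rfl fun r hr => ?_
      rw [mem_range] at hr
      have e : l + 1 - 1 - r = (l - 1 - r) + 1 := by omega
      rw [e, pow_succ]
      ring
    · simp

/-- The number with the digits `c 0, c 1, …, c (l - 1)` (the highest digit first). -/
def val {b l : ℕ} (c : Fin l → Fin b) : ℕ := finFunctionFinEquiv (fun i => c i.rev)

theorem val_lt {b l : ℕ} (c : Fin l → Fin b) : val c < b ^ l := (finFunctionFinEquiv _).2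

theorem val_eq {b l : ℕ} (c : Fin l → Fin b) (x : ℝ)
    (h : ∀ r : Fin l, ((c r : ℕ)) = ⌊(b : ℝ) * Int.fract ((b : ℝ) ^ (r : ℕ) * x)⌋₊) :
    ⌊((b : ℝ) ^ l) * Int.fract x⌋₊ = val c := by
  rw [floor_block, val, finFunctionFinEquiv_apply]
  rw [← Equiv.sum_comp Fin.revPerm]
  rw [← Fin.sum_univ_eq_sum_range (fun r => ⌊(b : ℝ) * Int.fract ((b : ℝ) ^ r * x)⌋₊ * b ^ (l - 1 - r)) l]
  refine sum_congr rfl fun i _ => ?_
  rw [← h i, Fin.revPerm_apply, Fin.rev_rev]
  congr 2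
  rw [Fin.val_rev]
  omega

theorem val_bij {b l : ℕ} (a : ℕ) (ha : a < b ^ l) : ∃! c : Fin l → Fin b, val c = a := by
  refine ⟨fun i => (finFunctionFinEquiv.symm ⟨a, ha⟩ : Fin l → Fin b) i.rev, ?_, ?_⟩
  · simp only [val, Fin.rev_rev]
    have := finFunctionFinEquiv.apply_symm_apply (⟨a, ha⟩ : Fin (b ^ l))
    exact congrArg Fin.val this
  · intro c hc
    have h1 : finFunctionFinEquiv (fun i => c i.rev) = (⟨a, ha⟩ : Fin (b ^ l)) := Fin.ext hc
    have h2 : (fun i => c i.rev) = finFunctionFinEquiv.symm (⟨a, ha⟩ : Fin (b ^ l)) := by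
      rw [← h1, Equiv.symm_apply_apply]
    funext i
    rw [← h2]
    simp

/-- the number of blocks whose value lies in `[J, J')` -/
theorem card_val {b l : ℕ} (J J' : ℕ) (hJ : J' ≤ b ^ l) :
    (univ.filter fun c : Fin l → Fin b => J ≤ val c ∧ val c < J').card = J' - J := by
  rw [← Nat.card_Ico J J']
  refine card_bij (fun c _ => val c) ?_ ?_ ?_
  · intro c hc
    rw [mem_filter] at hc
    rw [mem_Ico]
    exact hc.2
  · intro c hc c' hc' h
    exact (val_bij (val c) (val_lt c)).unique rfl h.symm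
  · intro a ha
    rw [mem_Ico] at ha
    obtain ⟨c, hc, -⟩ := val_bij (b := b) (l := l) a (by omega)
    refine ⟨c, ?_, hc⟩
    rw [mem_filter]
    exact ⟨mem_univ _, by omega, by omega⟩

end Pool.Agent.X121.WN
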