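import Pool.Agent.X121.WN.Tail

set_option autoImplicit false

/-! # Windows as unions of chunks, and boxes as unions of cells -/

namespace Pool.Agent.X121.WN

open Finset

theorem sum_classes (f : ℕ → ℝ) (i l k : ℕ) :
    ∑ j ∈ range (k * l), f (i + j) = ∑ a ∈ range l, ∑ j ∈ range k, f (i + a + j * l) := by
  induction k with
  | zero => simp
  | succ k ih =>
    rw [add_mul, one_mul, sum_range_add, ih, ← sum_add_distrib]
    refine sum_congr rfl fun a _ => ?_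
    rw [sum_range_succ]
    congr 2
    ring

theorem chunks (f : ℕ → ℝ) (hf : ∀ j, |f j| ≤ 1) {k l : ℕ} (hk : 1 ≤ k) (hl : 1 ≤ l) {ε : ℝ}
    (hε : 0 ≤ ε) (W : ℕ) : ∀ i, (∀ s, i ≤ s → s + k * l ≤ i + W →
      |∑ j ∈ range k, f (s + j * l)| ≤ ε * k) →
      |∑ j ∈ range W, f (i + j)| ≤ ε * W + 2 * (k * l : ℕ) := by
  induction W using Nat.strong_induction_on with
  | _ W ih =>
    intro i h
    have hkl : 1 ≤ k * l := Nat.mul_pos hk hl
    rcases Nat.lt_or_ge W (2 * (k * l)) with hW | hW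
    · have h1 : |∑ j ∈ range W, f (i + j)| ≤ W := by
        refine (abs_sum_le_sum_abs _ _).trans ?_
        calc ∑ j ∈ range W, |f (i + j)| ≤ ∑ j ∈ range W, (1 : ℝ) := sum_le_sum fun j _ => hf _
          _ = W := by simp
      have h2 : (W : ℝ) ≤ 2 * (k * l : ℕ) := by exact_mod_cast hW.le
      have h3 : 0 ≤ ε * W := by positivity
      linarith
    · obtain ⟨V, hV⟩ : ∃ V, W = k * l + V := ⟨W - k * l, by omega⟩
      have hVW : V < W := by omega
      have h1 := ih V hVW (i + k * l) (fun s hs1 hs2 => h s (by omega) (by omega))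
      have h2 : |∑ j ∈ range (k * l), f (i + j)| ≤ ε * (k * l : ℕ) := by
        rw [sum_classes]
        refine (abs_sum_le_sum_abs _ _).trans ?_
        calc ∑ a ∈ range l, |∑ j ∈ range k, f (i + a + j * l)| ≤ ∑ a ∈ range l, ε * k := by
              refine sum_le_sum fun a ha => h _ (by omega) ?_
              rw [mem_range] at ha
              have : l ≤ k * l := Nat.le_mul_of_pos_left _ hk
              omega
          _ = ε * (k * l : ℕ) := by
              rw [sum_const, card_range, nsmul_eq_mul]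
              push_cast
              ring
      rw [hV, sum_range_add]
      have h3 : ∑ j ∈ range V, f (i + (k * l + j)) = ∑ j ∈ range V, f (i + k * l + j) :=
        sum_congr rfl fun j _ => by rw [add_assoc]
      rw [h3]
      refine (abs_add_le _ _).trans ((add_le_add h2 h1).trans (le_of_eq ?_))
      push_cast
      ring

theorem prod_diff {κ : Type} (s : Finset κ) (a b : κ → ℝ) (ha : ∀ t, |a t| ≤ 1) (hb : ∀ t, |b t| ≤ 1) :
    |∏ t ∈ s, a t - ∏ t ∈ s, b t| ≤ ∑ t ∈ s, |a t - b t| := by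
  classical
  induction s using Finset.induction_on with
  | empty => simp
  | insert x s hx ih =>
    rw [prod_insert hx, prod_insert hx, sum_insert hx]
    have e : a x * ∏ t ∈ s, a t - b x * ∏ t ∈ s, b t =
        (a x - b x) * ∏ t ∈ s, a t + b x * (∏ t ∈ s, a t - ∏ t ∈ s, b t) := by ring
    rw [e]
    refine (abs_add_le _ _).trans (add_le_add ?_ ?_)
    · rw [abs_mul]
      have h1 : |∏ t ∈ s, a t| ≤ 1 := by
        rw [Finset.abs_prod]
        exact prod_le_one (fun t _ => abs_nonneg _) (fun t _ => ha t)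
      nlinarith [abs_nonneg (a x - b x)]
    · rw [abs_mul]
      nlinarith [abs_nonneg (∏ t ∈ s, a t - ∏ t ∈ s, b t), hb x, abs_nonneg (b x)]

theorem box {κ : Type} [Fintype κ] (x : ℕ → κ → ℝ) (W : ℕ) {B : ℕ} (hB : 1 ≤ B) {δ : ℝ}
    (h : ∀ J J' : κ → ℕ, (∀ t, J t ≤ B) → (∀ t, J' t ≤ B) →
      |(((range W).filter (fun j => ∀ t, J t ≤ ⌊(B : ℝ) * Int.fract (x j t)⌋₊ ∧
          ⌊(B : ℝ) * Int.fract (x j t)⌋₊ < J' t)).card : ℝ) -
        (∏ t, (((J' t - J t : ℕ) : ℝ) / B)) * W| ≤ δ)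
    (u v : κ → ℝ) (hu : ∀ t, 0 ≤ u t) (huv : ∀ t, u t ≤ v t) (hv : ∀ t, v t ≤ 1) :
    |(((range W).filter (fun j => ∀ t, u t ≤ Int.fract (x j t) ∧ Int.fract (x j t) < v t)).card : ℝ) -
      (∏ t, (v t - u t)) * W| ≤ δ + 2 * Fintype.card κ / B * W := by
  classical
  have hB0 : (0 : ℝ) < B := by exact_mod_cast hB
  have key : ∀ J J' : κ → ℕ, (∀ t, J t ≤ B) → (∀ t, J' t ≤ B) →
      (∀ t, |((J' t - J t : ℕ) : ℝ) / B - (v t - u t)| ≤ 2 / B) →
      |(∏ t, (((J' t - J t : ℕ) : ℝ) / B)) * W - (∏ t, (v t - u t)) * W| ≤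
        2 * Fintype.card κ / B * W := by
    intro J J' hJ hJ' hd
    rw [← sub_mul, abs_mul, Nat.abs_cast]
    refine mul_le_mul_of_nonneg_right ?_ (Nat.cast_nonneg _)
    refine (prod_diff _ _ _ ?_ ?_).trans ?_
    · intro t
      rw [abs_of_nonneg (by positivity), div_le_one hB0]
      exact_mod_cast (Nat.sub_le _ _).trans (hJ' t)
    · intro t
      rw [abs_of_nonneg (by linarith [huv t])]
      linarith [hu t, hv t]
    · calc ∑ t, |((J' t - J t : ℕ) : ℝ) / B - (v t - u t)| ≤ ∑ _t : κ, (2 / B : ℝ) :=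
            sum_le_sum fun t _ => hd t
        _ = _ := by
            rw [sum_const, card_univ, nsmul_eq_mul]
            ring
  -- the outer cells
  have e1 : ∀ t, ⌊(B : ℝ) * u t⌋₊ ≤ B := by
    intro t
    apply Nat.floor_le_of_le
    nlinarith [huv t, hv t, hu t]
  have e2 : ∀ t, ⌈(B : ℝ) * v t⌉₊ ≤ B := by
    intro t
    apply Nat.ceil_le.2
    nlinarith [huv t, hv t, hu t]
  have e3 : ∀ t, ⌈(B : ℝ) * u t⌉₊ ≤ B := by
    intro t
    apply Nat.ceil_le.2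
    nlinarith [huv t, hv t, hu t]
  have e4 : ∀ t, ⌊(B : ℝ) * v t⌋₊ ≤ B := by
    intro t
    apply Nat.floor_le_of_le
    nlinarith [huv t, hv t, hu t]
  have o1 := h (fun t => ⌊(B : ℝ) * u t⌋₊) (fun t => ⌈(B : ℝ) * v t⌉₊) e1 e2
  have o2 := key (fun t => ⌊(B : ℝ) * u t⌋₊) (fun t => ⌈(B : ℝ) * v t⌉₊) e1 e2 (by
    intro t
    have hv0 : 0 ≤ v t := (hu t).trans (huv t)
    have a1 : ⌊(B : ℝ) * u t⌋₊ ≤ ⌈(B : ℝ) * v t⌉₊ :=
      (Nat.floor_le_ceil _).trans (Nat.ceil_mono (by nlinarith [huv t]))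
    rw [Nat.cast_sub a1]
    have a2 := Nat.floor_le (mul_nonneg hB0.le (hu t))
    have a3 := Nat.lt_floor_add_one ((B : ℝ) * u t)
    have a4 := Nat.le_ceil ((B : ℝ) * v t)
    have a5 := Nat.ceil_lt_add_one (mul_nonneg hB0.le hv0)
    have a6 : (((⌈(B : ℝ) * v t⌉₊ : ℕ) : ℝ) - (⌊(B : ℝ) * u t⌋₊ : ℕ)) / B - (v t - u t) =
        (((⌈(B : ℝ) * v t⌉₊ : ℕ) : ℝ) - (⌊(B : ℝ) * u t⌋₊ : ℕ) - (B * v t - B * u t)) / B := by
      field_simp
    rw [a6, abs_div, abs_of_pos hB0]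
    apply div_le_div_of_nonneg_right _ hB0.le
    rw [abs_le]
    constructor <;> linarith)
  have i1 := h (fun t => ⌈(B : ℝ) * u t⌉₊) (fun t => ⌊(B : ℝ) * v t⌋₊) e3 e4
  have i2 := key (fun t => ⌈(B : ℝ) * u t⌉₊) (fun t => ⌊(B : ℝ) * v t⌋₊) e3 e4 (by
    intro t
    have hv0 : 0 ≤ v t := (hu t).trans (huv t)
    have a2 := Nat.floor_le (mul_nonneg hB0.le hv0)
    have a3 := Nat.lt_floor_add_one ((B : ℝ) * v t)
    have a4 := Nat.le_ceil ((B : ℝ) * u t)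
    have a5 := Nat.ceil_lt_add_one (mul_nonneg hB0.le (hu t))
    have a7 : (B : ℝ) * u t ≤ B * v t := by nlinarith [huv t]
    have a6 : ((⌊(B : ℝ) * v t⌋₊ - ⌈(B : ℝ) * u t⌉₊ : ℕ) : ℝ) / B - (v t - u t) =
        (((⌊(B : ℝ) * v t⌋₊ - ⌈(B : ℝ) * u t⌉₊ : ℕ) : ℝ) - (B * v t - B * u t)) / B := by
      field_simp
    rw [a6, abs_div, abs_of_pos hB0]
    apply div_le_div_of_nonneg_right _ hB0.le
    rw [abs_le]
    rcases Nat.le_total ⌈(B : ℝ) * u t⌉₊ ⌊(B : ℝ) * v t⌋₊ with hc | hc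
    · rw [Nat.cast_sub hc]
      constructor <;> linarith
    · rw [Nat.sub_eq_zero_of_le hc]
      have hc' : ((⌊(B : ℝ) * v t⌋₊ : ℕ) : ℝ) ≤ (⌈(B : ℝ) * u t⌉₊ : ℕ) := by exact_mod_cast hc
      push_cast
      constructor <;> linarith)
  -- inclusions
  have c1 : (((range W).filter (fun j => ∀ t, u t ≤ Int.fract (x j t) ∧ Int.fract (x j t) < v t)).card : ℝ) ≤
      (((range W).filter (fun j => ∀ t, ⌊(B : ℝ) * u t⌋₊ ≤ ⌊(B : ℝ) * Int.fract (x j t)⌋₊ ∧
          ⌊(B : ℝ) * Int.fract (x j t)⌋₊ < ⌈(B : ℝ) * v t⌉₊)).card : ℝ) := by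
    norm_cast
    refine card_le_card fun j hj => ?_
    rw [mem_filter] at hj ⊢
    refine ⟨hj.1, fun t => ⟨?_, ?_⟩⟩
    · exact Nat.floor_mono (mul_le_mul_of_nonneg_left (hj.2 t).1 hB0.le)
    · rw [Nat.floor_lt (mul_nonneg hB0.le (Int.fract_nonneg _))]
      exact (mul_lt_mul_of_pos_left (hj.2 t).2 hB0).trans_le (Nat.le_ceil _)
  have c2 : (((range W).filter (fun j => ∀ t, ⌈(B : ℝ) * u t⌉₊ ≤ ⌊(B : ℝ) * Int.fract (x j t)⌋₊ ∧
          ⌊(B : ℝ) * Int.fract (x j t)⌋₊ < ⌊(B : ℝ) * v t⌋₊)).card : ℝ) ≤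
      (((range W).filter (fun j => ∀ t, u t ≤ Int.fract (x j t) ∧ Int.fract (x j t) < v t)).card : ℝ) := by
    norm_cast
    refine card_le_card fun j hj => ?_
    rw [mem_filter] at hj ⊢
    refine ⟨hj.1, fun t => ⟨?_, ?_⟩⟩
    · have b1 := (hj.2 t).1
      have b2 : (B : ℝ) * u t ≤ (⌊(B : ℝ) * Int.fract (x j t)⌋₊ : ℕ) := Nat.ceil_le.1 b1
      have b3 := Nat.floor_le (mul_nonneg hB0.le (Int.fract_nonneg (x j t)))
      exact le_of_mul_le_mul_left (b2.trans b3) hB0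
    · have b1 := (hj.2 t).2
      have b2 : ((⌊(B : ℝ) * Int.fract (x j t)⌋₊ : ℕ) : ℝ) + 1 ≤ (⌊(B : ℝ) * v t⌋₊ : ℕ) := by exact_mod_cast b1
      have b3 := Nat.lt_floor_add_one ((B : ℝ) * Int.fract (x j t))
      have b4 := Nat.floor_le (mul_nonneg hB0.le ((hu t).trans (huv t)))
      exact lt_of_mul_lt_mul_left (b3.trans_le (b2.trans b4)) hB0.le
  have o3 := abs_le.1 o1
  have o4 := abs_le.1 o2
  have i3 := abs_le.1 i1
  have i4 := abs_le.1 i2
  rw [abs_le]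
  constructor
  · linarith [c2, i3.1, i4.1]
  · linarith [c1, o3.2, o4.2]

end Pool.Agent.X121.WN
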